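import Pool.Agent.H51BS.Homological

/-!
# The homological Parshin conjecture in negative weights and one rational function field
-/

set_option autoImplicit false

namespace Pool.Agent.Results.MP_7923e9_ag.NegativeWeightsOneField

open Pool.Agent.H51BS

/-- For all primes `p`, all `m < 0` and all `d ≥ 0` the following are equivalent:

1. `P_m(d)` over `𝔽_p`: `H_i^c(X, ℤ(m))` is torsion for all `i ≠ 2m` and all smooth projective `X`
   over `𝔽_p` of dimension at most `d`;
2. `Hʲ(𝔽_p(t₁, …, t_{d+1}), ℚ(d+1-m))` is finite dimensional for all `j`;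
3. `Hʲ(𝔽_p(t₁, …, t_{d+1}), ℚ(d+1-m)) = 0` for all `j`;
4. `Hʲ(E, ℚ(d-m)) = 0` for all `j` and all fields `E` of transcendence degree at most `d` over
   `𝔽_p`. -/
theorem result (M : HomologicalTheory) (p : ℕ) [Fact p.Prime] (m : ℤ) (d : ℕ) (hm : m < 0) :
    [ParshinAt M p m d, RationalFinite M.toCycleTheory p m d, RationalZero M.toCycleTheory p m d,
      FieldsZero M.toCycleTheory p m d].TFAE :=
  main_homological M p m d hm

end Pool.Agent.Results.MP_7923e9_ag.NegativeWeightsOneField
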